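import Mathlib
import Pool.Agent.Helper26.OS.FinO

/-!
# RE: congruent pairs of `p`-adic numbers
-/

set_option autoImplicit false

namespace Pool.Agent.Helper26.RE

open Pool.Agent.Helper87.FK Pool.Agent.Helper26.OB

noncomputable section

variable (p : ℕ) [hp : Fact p.Prime]

/-- the pairs of integral numbers with the same residue -/
def CR : Subring (PadicAlgCl p × PadicAlgCl p) where
  carrier := {z | ‖z.1‖ ≤ 1 ∧ ‖z.2‖ ≤ 1 ∧ ‖z.1 - z.2‖ < 1}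
  zero_mem' := by simp
  one_mem' := by simp
  add_mem' := by
    rintro ⟨a, b⟩ ⟨c, d⟩ ⟨h1, h2, h3⟩ ⟨h4, h5, h6⟩
    change ‖a‖ ≤ 1 at h1
    change ‖b‖ ≤ 1 at h2
    change ‖a - b‖ < 1 at h3
    change ‖c‖ ≤ 1 at h4
    change ‖d‖ ≤ 1 at h5
    change ‖c - d‖ < 1 at h6
    change ‖a + c‖ ≤ 1 ∧ ‖b + d‖ ≤ 1 ∧ ‖a + c - (b + d)‖ < 1
    refine ⟨(IsUltrametricDist.norm_add_le_max _ _).trans (max_le h1 h4),
      (IsUltrametricDist.norm_add_le_max _ _).trans (max_le h2 h5), ?_⟩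
    have e1 : a + c - (b + d) = (a - b) + (c - d) := by ring
    rw [e1]
    exact (IsUltrametricDist.norm_add_le_max _ _).trans_lt (max_lt h3 h6)
  neg_mem' := by
    rintro ⟨a, b⟩ ⟨h1, h2, h3⟩
    change ‖a‖ ≤ 1 at h1
    change ‖b‖ ≤ 1 at h2
    change ‖a - b‖ < 1 at h3
    change ‖-a‖ ≤ 1 ∧ ‖-b‖ ≤ 1 ∧ ‖-a - -b‖ < 1
    refine ⟨by rwa [norm_neg], by rwa [norm_neg], ?_⟩
    have e1 : -a - -b = -(a - b) := by ring
    rw [e1, norm_neg]
    exact h3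
  mul_mem' := by
    rintro ⟨a, b⟩ ⟨c, d⟩ ⟨h1, h2, h3⟩ ⟨h4, h5, h6⟩
    change ‖a‖ ≤ 1 at h1
    change ‖b‖ ≤ 1 at h2
    change ‖a - b‖ < 1 at h3
    change ‖c‖ ≤ 1 at h4
    change ‖d‖ ≤ 1 at h5
    change ‖c - d‖ < 1 at h6
    change ‖a * c‖ ≤ 1 ∧ ‖b * d‖ ≤ 1 ∧ ‖a * c - b * d‖ < 1
    refine ⟨?_, ?_, ?_⟩
    · rw [norm_mul]
      exact mul_le_one₀ h1 (norm_nonneg _) h4
    · rw [norm_mul]
      exact mul_le_one₀ h2 (norm_nonneg _) h5
    · have e1 : a * c - b * d = a * (c - d) + (a - b) * d := by ring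
      rw [e1]
      refine (IsUltrametricDist.norm_add_le_max _ _).trans_lt (max_lt ?_ ?_)
      · rw [norm_mul]
        exact mul_lt_one_of_nonneg_of_lt_one_right h1 (norm_nonneg _) h6
      · rw [norm_mul]
        exact mul_lt_one_of_nonneg_of_lt_one_left (norm_nonneg _) h3 h5

variable {p}

theorem mem_CR {a b : PadicAlgCl p} : (a, b) ∈ CR p ↔ ‖a‖ ≤ 1 ∧ ‖b‖ ≤ 1 ∧ ‖a - b‖ < 1 := Iff.rfl

theorem cr_norm {a b : PadicAlgCl p} (h : (a, b) ∈ CR p) (hb : ‖b‖ = 1) : ‖a‖ = 1 := by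
  obtain ⟨h1, h2, h3⟩ := mem_CR.1 h
  refine le_antisymm h1 ?_
  have e1 : b = a + -(a - b) := by ring
  have h4 := IsUltrametricDist.norm_add_le_max a (-(a - b))
  rw [← e1, hb, norm_neg] at h4
  rcases le_max_iff.1 h4 with h5 | h5
  · exact h5
  · exact absurd h5 (not_le.2 h3)

theorem cr_inv {a b : PadicAlgCl p} (h : (a, b) ∈ CR p) (hb : ‖b‖ = 1) : (a⁻¹, b⁻¹) ∈ CR p := by
  have ha := cr_norm h hb
  obtain ⟨h1, h2, h3⟩ := mem_CR.1 h
  have ha0 : a ≠ 0 := fun h0 => by rw [h0, norm_zero] at ha; exact zero_ne_one ha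
  have hb0 : b ≠ 0 := fun h0 => by rw [h0, norm_zero] at hb; exact zero_ne_one hb
  refine mem_CR.2 ⟨by rw [norm_inv, ha, inv_one], by rw [norm_inv, hb, inv_one], ?_⟩
  have e1 : a⁻¹ - b⁻¹ = -(a - b) * (a⁻¹ * b⁻¹) := by
    field_simp
    ring
  rw [e1, norm_mul, norm_neg, norm_mul, norm_inv, norm_inv, ha, hb]
  simpa using h3

theorem cr_div {a b c d : PadicAlgCl p} (h : (a, b) ∈ CR p) (h' : (c, d) ∈ CR p) (hd : ‖d‖ = 1) :
    (a / c, b / d) ∈ CR p := by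
  rw [div_eq_mul_inv, div_eq_mul_inv]
  have h1 := (CR p).mul_mem h (cr_inv h' hd)
  rw [Prod.mk_mul_mk] at h1
  exact h1

/-- polynomials with rational coefficients -/
theorem cr_mv {r : ℕ} (N : MvPolynomial (Fin r) ℚ) (hN : ∀ s ∈ N.support, ‖((N.coeff s : ℚ) : PadicAlgCl p)‖ ≤ 1)
    (x y : Fin r → PadicAlgCl p) (h : ∀ j, (x j, y j) ∈ CR p) :
    (MvPolynomial.aeval x N, MvPolynomial.aeval y N) ∈ CR p := by
  have h1 : MvPolynomial.eval₂ ((algebraMap ℚ (PadicAlgCl p)).prod (algebraMap ℚ (PadicAlgCl p)))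
      (fun j => (x j, y j)) N ∈ CR p := by
    refine MvPolynomial.eval₂_mem (fun s hs => ?_) h
    refine mem_CR.2 ⟨?_, ?_, ?_⟩
    · simpa using hN s hs
    · simpa using hN s hs
    · simp
  have h2 : MvPolynomial.eval₂ ((algebraMap ℚ (PadicAlgCl p)).prod (algebraMap ℚ (PadicAlgCl p)))
      (fun j => (x j, y j)) N = (MvPolynomial.aeval x N, MvPolynomial.aeval y N) := by
    refine Prod.ext ?_ ?_
    · exact MvPolynomial.eval₂_comp_left (RingHom.fst (PadicAlgCl p) (PadicAlgCl p)) _ _ N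
    · exact MvPolynomial.eval₂_comp_left (RingHom.snd (PadicAlgCl p) (PadicAlgCl p)) _ _ N
  rw [← h2]
  exact h1

theorem cr_sum (M : ℕ) (a b : ℕ → PadicAlgCl p) (x y : PadicAlgCl p) (h : ∀ n, (a n, b n) ∈ CR p) (hx : (x, y) ∈ CR p) :
    (∑ n ∈ Finset.range M, a n * x ^ n, ∑ n ∈ Finset.range M, b n * y ^ n) ∈ CR p := by
  have h1 : (∑ n ∈ Finset.range M, (a n, b n) * (x, y) ^ n) ∈ CR p :=
    (CR p).sum_mem fun n _ => (CR p).mul_mem (h n) ((CR p).pow_mem hx n)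
  have h2 : (∑ n ∈ Finset.range M, (a n, b n) * (x, y) ^ n) =
      (∑ n ∈ Finset.range M, a n * x ^ n, ∑ n ∈ Finset.range M, b n * y ^ n) := by
    refine Prod.ext ?_ ?_
    · rw [Prod.fst_sum]
      rfl
    · rw [Prod.snd_sum]
      rfl
  rw [← h2]
  exact h1

/-- powers -/
theorem cr_frob {a b : PadicAlgCl p} (h : (a, b) ∈ CR p) (n : ℕ) : ‖a ^ n - a‖ < 1 ↔ ‖b ^ n - b‖ < 1 := by
  have h1 := (CR p).sub_mem ((CR p).pow_mem h n) h
  rw [Prod.pow_mk, Prod.mk_sub_mk] at h1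
  obtain ⟨-, -, h4⟩ := mem_CR.1 h1
  constructor
  · intro h5
    have e1 : b ^ n - b = (a ^ n - a) + -((a ^ n - a) - (b ^ n - b)) := by ring
    rw [e1]
    exact (IsUltrametricDist.norm_add_le_max _ _).trans_lt (max_lt h5 (by rwa [norm_neg]))
  · intro h5
    have e1 : a ^ n - a = (b ^ n - b) + ((a ^ n - a) - (b ^ n - b)) := by ring
    rw [e1]
    exact (IsUltrametricDist.norm_add_le_max _ _).trans_lt (max_lt h5 h4)

end

end Pool.Agent.Helper26.RE
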