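import Mathlib
import Pool.Agent.Helper26.RE.Cong
import Pool.Agent.Helper53.RE.PB
import Pool.Agent.Helper46.RE.Spec
import Pool.Agent.Helper98.RE.R3

/-!
# RE: the embedding of a finitely generated field with complex conjugation
-/

set_option autoImplicit false

namespace Pool.Agent.Helper26.RE

open Polynomial Pool.Agent.Helper87.FK Pool.Agent.Helper26.OB

noncomputable section

/-- the real numbers, as an intermediate field -/
def Rr : IntermediateField ℚ ℂ := (Complex.ofRealAm.restrictScalars ℚ).fieldRange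

theorem mem_Rr {z : ℂ} : z ∈ Rr ↔ ((z.re : ℝ) : ℂ) = z := by
  constructor
  · rintro ⟨x, rfl⟩
    change (((x : ℂ).re : ℝ) : ℂ) = (x : ℂ)
    rw [Complex.ofReal_re]
  · intro h
    exact ⟨z.re, h⟩

/-- real part on a field of real numbers -/
def reE (E : IntermediateField ℚ ℂ) (hE : E ≤ Rr) : E →+* ℝ where
  toFun z := (z : ℂ).re
  map_one' := by simp
  map_zero' := by simp
  map_add' x y := by simp
  map_mul' x y := by
    have h1 := mem_Rr.1 (hE x.2)
    have h2 : (x : ℂ).im = 0 := by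
      rw [← h1]
      exact Complex.ofReal_im _
    change ((x : ℂ) * (y : ℂ)).re = (x : ℂ).re * (y : ℂ).re
    rw [Complex.mul_re, h2, zero_mul, sub_zero]

theorem ofReal_reE (E : IntermediateField ℚ ℂ) (hE : E ≤ Rr) (z : E) : ((reE E hE z : ℝ) : ℂ) = z :=
  mem_Rr.1 (hE z.2)

theorem ofReal_eval (E : IntermediateField ℚ ℂ) (hE : E ≤ Rr) (P : Polynomial E) (x : ℝ) :
    (((P.map (reE E hE)).eval x : ℝ) : ℂ) = aeval (x : ℂ) P := by
  have h1 : (((P.map (reE E hE)).eval x : ℝ) : ℂ) = Complex.ofRealHom ((P.map (reE E hE)).eval x) := rfl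
  rw [h1, eval_map, Polynomial.hom_eval₂, aeval_def]
  congr 1
  ext z
  exact ofReal_reE E hE z

/-- **RE** -/
theorem exR (W : Finset ℂ) (N₀ : ℕ) : ∃ (p : ℕ) (_ : Fact p.Prime) (τ : ℂ →+* PadicAlgCl p), N₀ < p ∧
    Un τ W ∧ ∀ z ∈ W, ∀ m : ℕ, ‖(τ z) ^ p ^ m - τ z‖ < 1 ↔ (starRingEnd ℂ)^[m] z = z := by
  classical
  let T : Finset ℂ := W.image (fun z => ((z.re : ℝ) : ℂ)) ∪ W.image (fun z => ((z.im : ℝ) : ℂ)) ∪
    W.image (fun z => ((Complex.normSq z : ℝ) : ℂ))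
  have hTR : ∀ z ∈ T, z ∈ Rr := by
    intro z hz
    rcases Finset.mem_union.1 hz with hz | hz
    · rcases Finset.mem_union.1 hz with hz | hz
      · obtain ⟨w, -, rfl⟩ := Finset.mem_image.1 hz
        exact ⟨_, rfl⟩
      · obtain ⟨w, -, rfl⟩ := Finset.mem_image.1 hz
        exact ⟨_, rfl⟩
    · obtain ⟨w, -, rfl⟩ := Finset.mem_image.1 hz
      exact ⟨_, rfl⟩
  obtain ⟨r, t, η, ht, htT, hη, hηT, hA⟩ := prim_basis T
  set E : IntermediateField ℚ ℂ := IntermediateField.adjoin ℚ (Set.range t) with hEdef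
  have hER : E ≤ Rr := by
    rw [hEdef, IntermediateField.adjoin_le_iff]
    rintro _ ⟨j, rfl⟩
    exact hTR _ (htT j)
  have hηR : η ∈ Rr := by
    have h1 : IntermediateField.adjoin ℚ (T : Set ℂ) ≤ Rr :=
      IntermediateField.adjoin_le_iff.2 fun z hz => hTR z hz
    exact h1 hηT
  choose! A hA using hA
  let tr : Fin r → ℝ := fun j => (t j).re
  have htr : ∀ j, ((tr j : ℝ) : ℂ) = t j := fun j => mem_Rr.1 (hTR _ (htT j))
  let ηr : ℝ := η.re
  have hηr : ((ηr : ℝ) : ℂ) = η := mem_Rr.1 hηR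
  let P : Polynomial E := minpoly E η
  let PR : ℝ[X] := P.map (reE E hER)
  have hPm : P.Monic := minpoly.monic hη.isIntegral
  have h0 : PR.eval ηr = 0 := by
    have h1 := ofReal_eval E hER P ηr
    rw [hηr, minpoly.aeval] at h1
    exact_mod_cast h1
  have h1 : PR.derivative.eval ηr ≠ 0 := by
    rw [Polynomial.derivative_map]
    intro h2
    have h3 := ofReal_eval E hER P.derivative ηr
    rw [h2, hηr] at h3
    have h4 : P.Separable := (minpoly.irreducible hη.isIntegral).separable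
    exact h4.aeval_derivative_ne_zero (minpoly.aeval E η) (by rw [← h3]; simp)
  let AR : ℂ → ℝ[X] := fun z => (A z).map (reE E hER)
  have hAR : ∀ z ∈ T, (((AR z).eval ηr : ℝ) : ℂ) = z := by
    intro z hz
    rw [ofReal_eval, hηr, hA z hz]
  -- the coefficients
  let U : Finset ℝ := PR.coeffs ∪ (T.biUnion fun z => (AR z).coeffs) ∪ {0}
  have hU0 : (0 : ℝ) ∈ U := Finset.mem_union_right _ (Finset.mem_singleton_self _)
  have hUP : ∀ n, PR.coeff n ∈ U := by
    intro n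
    by_cases h2 : PR.coeff n = 0
    · rw [h2]
      exact hU0
    · exact Finset.mem_union_left _ (Finset.mem_union_left _ (mem_coeffs_iff.2 ⟨n, mem_support_iff.2 h2, rfl⟩))
  have hUA : ∀ z ∈ T, ∀ n, (AR z).coeff n ∈ U := by
    intro z hz n
    by_cases h2 : (AR z).coeff n = 0
    · rw [h2]
      exact hU0
    · exact Finset.mem_union_left _ (Finset.mem_union_right _ (Finset.mem_biUnion.2 ⟨z, hz,
        mem_coeffs_iff.2 ⟨n, mem_support_iff.2 h2, rfl⟩⟩))
  have hUE : ∀ c ∈ U, ((c : ℝ) : ℂ) ∈ E := by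
    intro c hc
    have h3 : ∀ (Q : Polynomial E) (n : ℕ), (((Q.map (reE E hER)).coeff n : ℝ) : ℂ) ∈ E := by
      intro Q n
      rw [coeff_map, ofReal_reE]
      exact (Q.coeff n).2
    rcases Finset.mem_union.1 hc with hc | hc
    · rcases Finset.mem_union.1 hc with hc | hc
      · obtain ⟨n, -, rfl⟩ := mem_coeffs_iff.1 hc
        exact h3 P n
      · obtain ⟨z, -, hc⟩ := Finset.mem_biUnion.1 hc
        obtain ⟨n, -, rfl⟩ := mem_coeffs_iff.1 hc
        exact h3 (A z) n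
    · rw [Finset.mem_singleton.1 hc]
      simp
  have hcast : ∀ N : MvPolynomial (Fin r) ℚ, ((MvPolynomial.aeval tr N : ℝ) : ℂ) = MvPolynomial.aeval t N := by
    intro N
    have h2 : ((MvPolynomial.aeval tr N : ℝ) : ℂ) = Complex.ofRealHom (MvPolynomial.aeval tr N) := rfl
    rw [h2, MvPolynomial.map_aeval, MvPolynomial.aeval_def, MvPolynomial.coe_eval₂Hom]
    congr 1
    funext j
    exact htr j
  have hfr : ∀ c ∈ U, ∃ N D : MvPolynomial (Fin r) ℚ, MvPolynomial.aeval tr D ≠ 0 ∧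
      MvPolynomial.aeval tr N / MvPolynomial.aeval tr D = c := by
    intro c hc
    obtain ⟨N, D, h2⟩ := (IntermediateField.mem_adjoin_range_iff ℚ t _).1 (hUE c hc)
    rw [← hcast, ← hcast] at h2
    have h3 : MvPolynomial.aeval tr N / MvPolynomial.aeval tr D = c := by exact_mod_cast h2.symm
    by_cases h4 : MvPolynomial.aeval tr D = 0
    · refine ⟨0, 1, by simp, ?_⟩
      rw [h4, div_zero] at h3
      simp [← h3]
    · exact ⟨N, D, h4, h3⟩
  choose! Nn Dd hD hc using hfr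
  -- the specialisation
  let S : Finset ℝ[X] := (T.filter fun z => z ≠ 0).image AR
  obtain ⟨t', η', hD', hP', hS'⟩ := real_spec tr U Nn Dd hD hc PR hUP ηr h0 h1 S (by
    intro G hG
    obtain ⟨z, hz, rfl⟩ := Finset.mem_image.1 hG
    obtain ⟨hz, hz0⟩ := Finset.mem_filter.1 hz
    refine ⟨hUA z hz, fun h2 => hz0 ?_⟩
    have h3 := hAR z hz
    rw [h2] at h3
    rw [← h3]
    simp)
  let tR : Fin r → ℝ := fun j => (t' j : ℝ)
  let vq : ℝ → ℚ := fun c => MvPolynomial.aeval t' (Nn c) / MvPolynomial.aeval t' (Dd c)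
  have hcast' : ∀ N : MvPolynomial (Fin r) ℚ, ((MvPolynomial.aeval t' N : ℚ) : ℝ) = MvPolynomial.aeval tR N := by
    intro N
    have h2 : ((MvPolynomial.aeval t' N : ℚ) : ℝ) = Rat.castHom ℝ (MvPolynomial.aeval t' N) := rfl
    rw [h2, MvPolynomial.map_aeval, MvPolynomial.aeval_def, MvPolynomial.coe_eval₂Hom]
    congr 1
  have hvq : ∀ c, ((vq c : ℚ) : ℝ) = val Nn Dd tR c := by
    intro c
    change (((MvPolynomial.aeval t' (Nn c) / MvPolynomial.aeval t' (Dd c) : ℚ)) : ℝ) = _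
    rw [Rat.cast_div, hcast', hcast']
    rfl
  -- the algebraic numbers
  have hlead : vq (PR.coeff PR.natDegree) = 1 := by
    have h2 : PR.coeff PR.natDegree = 1 := (hPm.map _).coeff_natDegree
    rw [h2]
    have h3 : (1 : ℝ) ∈ U := h2 ▸ hUP PR.natDegree
    have h4 := hc 1 h3
    have h5 : MvPolynomial.aeval tr (Nn 1) = MvPolynomial.aeval tr (Dd 1) := by
      have h6 := hD 1 h3
      change MvPolynomial.aeval tr (Nn 1) / MvPolynomial.aeval tr (Dd 1) = 1 at h4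
      exact (div_eq_one_iff_eq h6).1 h4
    have h6 : Nn 1 = Dd 1 := by
      apply ht
      rw [← hcast, ← hcast, h5]
    have h7 : MvPolynomial.aeval t' (Dd 1) ≠ 0 := by
      intro h8
      have h9 := hcast' (Dd 1)
      rw [h8] at h9
      exact hD' 1 h3 (by rw [← Rat.cast_zero (α := ℝ), h9])
    change MvPolynomial.aeval t' (Nn 1) / MvPolynomial.aeval t' (Dd 1) = 1
    rw [h6]
    exact div_self h7
  have hη'alg : IsAlgebraic ℚ ((η' : ℝ) : ℂ) := by
    let Q : ℚ[X] := ∑ n ∈ Finset.range (PR.natDegree + 1), C (vq (PR.coeff n)) * X ^ n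
    have hQc : Q.coeff PR.natDegree = 1 := by
      rw [finsetSum_coeff, Finset.sum_eq_single PR.natDegree]
      · rw [coeff_C_mul, coeff_X_pow, if_pos rfl, mul_one, hlead]
      · intro n _ hn
        rw [coeff_C_mul, coeff_X_pow, if_neg (Ne.symm hn), mul_zero]
      · intro h2
        exact absurd (Finset.mem_range.2 (Nat.lt_succ_self _)) h2
    have h2 : IsAlgebraic ℚ η' := by
      refine ⟨Q, fun h3 => ?_, ?_⟩
      · rw [h3, coeff_zero] at hQc
        exact zero_ne_one hQc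
      · rw [map_sum, ← hP']
        refine Finset.sum_congr rfl fun n _ => ?_
        rw [map_mul, map_pow, aeval_X, aeval_C, ← hvq]
        rfl
    exact h2.algebraMap
  let xs : ℂ → ℝ := fun z => ∑ n ∈ Finset.range ((AR z).natDegree + 1), ((vq ((AR z).coeff n) : ℚ) : ℝ) * η' ^ n
  have hxs0 : ∀ z ∈ T, z ≠ 0 → xs z ≠ 0 := by
    intro z hz hz0
    have h2 : ∑ n ∈ Finset.range ((AR z).natDegree + 1), val Nn Dd tR ((AR z).coeff n) * η' ^ n ≠ 0 :=
      hS' (AR z) (Finset.mem_image_of_mem _ (Finset.mem_filter.2 ⟨hz, hz0⟩))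
    intro h3
    apply h2
    rw [← h3]
    refine Finset.sum_congr rfl fun n _ => ?_
    rw [hvq]
  have hratalg : ∀ q : ℚ, IsAlgebraic ℚ ((q : ℚ) : ℂ) := fun q => isAlgebraic_algebraMap q
  have hxsalg : ∀ z, IsAlgebraic ℚ ((xs z : ℝ) : ℂ) := by
    intro z
    have h2 : ((xs z : ℝ) : ℂ) = ∑ n ∈ Finset.range ((AR z).natDegree + 1),
        ((vq ((AR z).coeff n) : ℚ) : ℂ) * ((η' : ℝ) : ℂ) ^ n := by
      change ((∑ n ∈ Finset.range ((AR z).natDegree + 1), ((vq ((AR z).coeff n) : ℚ) : ℝ) * η' ^ n : ℝ) : ℂ) = _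
      rw [Complex.ofReal_sum]
      refine Finset.sum_congr rfl fun n _ => ?_
      rw [Complex.ofReal_mul, Complex.ofReal_pow, Complex.ofReal_ratCast]
    rw [h2]
    have h3 : ∀ s : Finset ℕ, IsAlgebraic ℚ (∑ n ∈ s, ((vq ((AR z).coeff n) : ℚ) : ℂ) * ((η' : ℝ) : ℂ) ^ n) := by
      intro s
      induction s using Finset.induction_on with
      | empty => simpa using isAlgebraic_zero
      | insert a s ha ih =>
        rw [Finset.sum_insert ha]
        exact ((hratalg _).mul (hη'alg.pow _)).add ih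
    exact h3 _
  let Zq : Finset ℚ := Finset.univ.image t' ∪ U.image vq ∪ U.image (fun c => MvPolynomial.aeval t' (Dd c)) ∪
    U.biUnion fun c => (Nn c).coeffs ∪ (Dd c).coeffs
  let Z : Finset ℂ := {Complex.I, ((η' : ℝ) : ℂ)} ∪ Zq.image (fun q => ((q : ℚ) : ℂ)) ∪
    T.image fun z => ((xs z : ℝ) : ℂ)
  have hZ : ∀ z ∈ Z, IsAlgebraic ℚ z := by
    intro z hz
    rcases Finset.mem_union.1 hz with hz | hz
    · rcases Finset.mem_union.1 hz with hz | hz
      · rcases Finset.mem_insert.1 hz with hz | hz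
        · rw [hz]
          refine ⟨X ^ 2 + 1, fun h2 => ?_, ?_⟩
          · have h3 := congrArg (fun q : ℚ[X] => q.coeff 0) h2
            simp at h3
          · simp
        · rw [Finset.mem_singleton.1 hz]
          exact hη'alg
      · obtain ⟨q, -, rfl⟩ := Finset.mem_image.1 hz
        exact hratalg q
    · obtain ⟨w, -, rfl⟩ := Finset.mem_image.1 hz
      exact hxsalg w
  have hIZ : Complex.I ∈ Z := Finset.mem_union_left _ (Finset.mem_union_left _ (Finset.mem_insert_self _ _))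
  have hηZ : ((η' : ℝ) : ℂ) ∈ Z := Finset.mem_union_left _ (Finset.mem_union_left _
    (Finset.mem_insert_of_mem (Finset.mem_singleton_self _)))
  have hqZ : ∀ q ∈ Zq, ((q : ℚ) : ℂ) ∈ Z := fun q hq => Finset.mem_union_left _ (Finset.mem_union_right _
    (Finset.mem_image_of_mem _ hq))
  have hxZ : ∀ z ∈ T, ((xs z : ℝ) : ℂ) ∈ Z := fun z hz => Finset.mem_union_right _ (Finset.mem_image.2 ⟨z, hz, rfl⟩)
  let cj : ℂ ≃+* ℂ := Complex.conjAe.toRingEquiv
  have hcj : ∀ z, cj z = starRingEnd ℂ z := fun z => rfl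
  have hcji : ∀ (m : ℕ) (z : ℂ), cj^[m] z = (starRingEnd ℂ)^[m] z := by
    intro m
    induction m with
    | zero => exact fun z => rfl
    | succ m ih =>
      intro z
      rw [Function.iterate_succ_apply, Function.iterate_succ_apply, hcj, ih]
  have hcjr : ∀ (m : ℕ) (x : ℝ), cj^[m] (x : ℂ) = x := by
    intro m x
    exact Function.iterate_fixed (by rw [hcj, Complex.conj_ofReal]) m
  obtain ⟨p, hp, τ₀, hpN, hUn, hfr⟩ := Pool.Agent.Helper53.OB.frob_equiv cj Z hZ (max N₀ 3)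
  have hp3 : 3 < p := lt_of_le_of_lt (le_max_right _ _) hpN
  have hq1 : ∀ q ∈ Zq, ‖((q : ℚ) : PadicAlgCl p)‖ ≤ 1 := by
    intro q hq
    have h2 := (hUn _ (hqZ q hq)).1
    change ‖τ₀ ((q : ℚ) : ℂ)‖ ≤ 1 at h2
    rwa [map_ratCast] at h2
  have hq0 : ∀ q ∈ Zq, q ≠ 0 → ‖((q : ℚ) : PadicAlgCl p)‖ = 1 := by
    intro q hq hq0
    have h2 := (hUn _ (hqZ q hq)).2 (by exact_mod_cast hq0)
    change ‖τ₀ ((q : ℚ) : ℂ)‖ = 1 at h2
    rwa [map_ratCast] at h2
  let θ : Fin r → PadicAlgCl p := fun j => ((t' j : ℚ) : PadicAlgCl p)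
  let ρ : PadicAlgCl p := τ₀ ((η' : ℝ) : ℂ)
  have hρ : ‖ρ‖ ≤ 1 := (hUn _ hηZ).1
  have htZq : ∀ j, t' j ∈ Zq := fun j => Finset.mem_union_left _ (Finset.mem_union_left _ (Finset.mem_union_left _
    (Finset.mem_image_of_mem _ (Finset.mem_univ j))))
  have hvZq : ∀ c ∈ U, vq c ∈ Zq := fun c hc => Finset.mem_union_left _ (Finset.mem_union_left _
    (Finset.mem_union_right _ (Finset.mem_image_of_mem _ hc)))
  have hDZq : ∀ c ∈ U, MvPolynomial.aeval t' (Dd c) ∈ Zq := fun c hc => Finset.mem_union_left _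
    (Finset.mem_union_right _ (Finset.mem_image.2 ⟨c, hc, rfl⟩))
  have hNZq : ∀ c ∈ U, ∀ s ∈ (Nn c).support, (Nn c).coeff s ∈ Zq := fun c hc s hs => Finset.mem_union_right _
    (Finset.mem_biUnion.2 ⟨c, hc, Finset.mem_union_left _ (MvPolynomial.mem_coeffs_iff.2 ⟨s, hs, rfl⟩)⟩)
  have hdZq : ∀ c ∈ U, ∀ s ∈ (Dd c).support, (Dd c).coeff s ∈ Zq := fun c hc s hs => Finset.mem_union_right _
    (Finset.mem_biUnion.2 ⟨c, hc, Finset.mem_union_right _ (MvPolynomial.mem_coeffs_iff.2 ⟨s, hs, rfl⟩)⟩)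
  have hD0 : ∀ c ∈ U, MvPolynomial.aeval t' (Dd c) ≠ 0 := by
    intro c hc h8
    have h9 := hcast' (Dd c)
    rw [h8] at h9
    exact hD' c hc (by rw [← Rat.cast_zero (α := ℝ), h9])
  have hθ : ∀ N : MvPolynomial (Fin r) ℚ, MvPolynomial.aeval θ N = ((MvPolynomial.aeval t' N : ℚ) : PadicAlgCl p) := by
    intro N
    have h2 : ((MvPolynomial.aeval t' N : ℚ) : PadicAlgCl p) = Rat.castHom (PadicAlgCl p) (MvPolynomial.aeval t' N) := rfl
    rw [h2, MvPolynomial.map_aeval, MvPolynomial.aeval_def, MvPolynomial.coe_eval₂Hom]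
    congr 1
  -- the congruences
  have key : ∀ τ₁ : ℂ →+* PadicAlgCl p, (∀ j, ‖τ₁ (t j) - θ j‖ < 1) → ∀ c ∈ U,
      (τ₁ ((c : ℝ) : ℂ), ((vq c : ℚ) : PadicAlgCl p)) ∈ CR p := by
    intro τ₁ h2 c hcU
    have h3 : ∀ j, (τ₁ (t j), θ j) ∈ CR p := by
      intro j
      refine mem_CR.2 ⟨?_, hq1 _ (htZq j), h2 j⟩
      have e1 : τ₁ (t j) = (τ₁ (t j) - θ j) + θ j := by ring
      rw [e1]
      exact (IsUltrametricDist.norm_add_le_max _ _).trans (max_le (h2 j).le (hq1 _ (htZq j)))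
    have h4 : ∀ N : MvPolynomial (Fin r) ℚ, τ₁ ((MvPolynomial.aeval tr N : ℝ) : ℂ) =
        MvPolynomial.aeval (fun j => τ₁ (t j)) N := by
      intro N
      rw [hcast, MvPolynomial.map_aeval, MvPolynomial.aeval_def, MvPolynomial.coe_eval₂Hom]
      congr 1
      exact Subsingleton.elim _ _
    have h5 : τ₁ ((c : ℝ) : ℂ) = MvPolynomial.aeval (fun j => τ₁ (t j)) (Nn c) /
        MvPolynomial.aeval (fun j => τ₁ (t j)) (Dd c) := by
      rw [← h4, ← h4, ← map_div₀, ← Complex.ofReal_div, hc c hcU]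
    have h6 : ((vq c : ℚ) : PadicAlgCl p) = MvPolynomial.aeval θ (Nn c) / MvPolynomial.aeval θ (Dd c) := by
      rw [hθ, hθ, ← Rat.cast_div]
    rw [h5, h6]
    refine cr_div (cr_mv (Nn c) (fun s hs => hq1 _ (hNZq c hcU s hs)) _ _ h3)
      (cr_mv (Dd c) (fun s hs => hq1 _ (hdZq c hcU s hs)) _ _ h3) ?_
    rw [hθ]
    exact hq0 _ (hDZq c hcU) (hD0 c hcU)
  have hcoe : ∀ (Q : Polynomial E) (n : ℕ), (((Q.map (reE E hER)).coeff n : ℝ) : ℂ) = ((Q.coeff n : E) : ℂ) := by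
    intro Q n
    rw [coeff_map, ofReal_reE]
  have hρρ : (ρ, ρ) ∈ CR p := mem_CR.2 ⟨hρ, hρ, by rw [sub_self, norm_zero]; exact one_pos⟩
  obtain ⟨τ, hτt, hτη⟩ := padic_lift t ht η hη θ ρ hρ (by
    intro τ₁ h2
    refine ⟨fun n => ?_, ?_⟩
    · have h3 := (mem_CR.1 (key τ₁ h2 _ (hUP n))).1
      rw [hcoe] at h3
      exact h3
    · have h3 := cr_sum (PR.natDegree + 1) (fun n => τ₁ ((PR.coeff n : ℝ) : ℂ))
        (fun n => ((vq (PR.coeff n) : ℚ) : PadicAlgCl p)) ρ ρ (fun n => key τ₁ h2 _ (hUP n)) hρρ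
      have h4 : ∑ n ∈ Finset.range (PR.natDegree + 1), ((vq (PR.coeff n) : ℚ) : PadicAlgCl p) * ρ ^ n = 0 := by
        have h5 : τ₀ (((∑ n ∈ Finset.range (PR.natDegree + 1), ((vq (PR.coeff n) : ℚ) : ℝ) * η' ^ n : ℝ)) : ℂ) = 0 := by
          have h6 : ∑ n ∈ Finset.range (PR.natDegree + 1), ((vq (PR.coeff n) : ℚ) : ℝ) * η' ^ n = 0 := by
            rw [← hP']
            refine Finset.sum_congr rfl fun n _ => ?_
            rw [hvq]
          rw [h6, Complex.ofReal_zero, map_zero]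
        rw [← h5, Complex.ofReal_sum, map_sum]
        refine Finset.sum_congr rfl fun n _ => ?_
        rw [Complex.ofReal_mul, Complex.ofReal_pow, Complex.ofReal_ratCast, map_mul, map_pow, map_ratCast]
      have h5 : ((minpoly (IntermediateField.adjoin ℚ (Set.range t)) η).map
          (τ₁.comp (algebraMap (IntermediateField.adjoin ℚ (Set.range t)) ℂ))).eval ρ =
          ∑ n ∈ Finset.range (PR.natDegree + 1), τ₁ ((PR.coeff n : ℝ) : ℂ) * ρ ^ n := by
        have h6 : PR.natDegree = P.natDegree := hPm.natDegree_map _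
        rw [h6, eval_map, eval₂_eq_sum_range]
        refine Finset.sum_congr rfl fun n _ => ?_
        rw [hcoe]
        rfl
      rw [h5]
      have h6 := (mem_CR.1 h3).2.2
      rw [h4, sub_zero] at h6
      exact h6)
  have hηρ : (τ η, ρ) ∈ CR p := by
    refine mem_CR.2 ⟨?_, hρ, hτη⟩
    have e1 : τ η = (τ η - ρ) + ρ := by ring
    rw [e1]
    exact (IsUltrametricDist.norm_add_le_max _ _).trans (max_le hτη.le hρ)
  have keyA : ∀ z ∈ T, (τ z, τ₀ ((xs z : ℝ) : ℂ)) ∈ CR p := by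
    intro z hz
    have h3 := cr_sum ((AR z).natDegree + 1) (fun n => τ (((AR z).coeff n : ℝ) : ℂ))
      (fun n => ((vq ((AR z).coeff n) : ℚ) : PadicAlgCl p)) (τ η) ρ (fun n => key τ hτt _ (hUA z hz n)) hηρ
    have h4 : τ z = ∑ n ∈ Finset.range ((AR z).natDegree + 1), τ (((AR z).coeff n : ℝ) : ℂ) * (τ η) ^ n := by
      have h5 : (AR z).natDegree = (A z).natDegree := natDegree_map _
      conv_lhs => rw [← hA z hz, aeval_eq_sum_range]
      rw [h5, map_sum]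
      refine Finset.sum_congr rfl fun n _ => ?_
      rw [hcoe, Algebra.smul_def, map_mul, map_pow]
      rfl
    have h5 : τ₀ ((xs z : ℝ) : ℂ) = ∑ n ∈ Finset.range ((AR z).natDegree + 1),
        ((vq ((AR z).coeff n) : ℚ) : PadicAlgCl p) * ρ ^ n := by
      change τ₀ ((∑ n ∈ Finset.range ((AR z).natDegree + 1), ((vq ((AR z).coeff n) : ℚ) : ℝ) * η' ^ n : ℝ) : ℂ) = _
      rw [Complex.ofReal_sum, map_sum]
      refine Finset.sum_congr rfl fun n _ => ?_
      rw [Complex.ofReal_mul, Complex.ofReal_pow, Complex.ofReal_ratCast, map_mul, map_pow, map_ratCast]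
    rw [h4, h5]
    exact h3
  -- the real and imaginary parts
  have hreal : ∀ x : ℝ, ((x : ℝ) : ℂ) ∈ T → ‖τ (x : ℂ)‖ ≤ 1 ∧ (x ≠ 0 → ‖τ (x : ℂ)‖ = 1) ∧
      ∀ m : ℕ, ‖(τ (x : ℂ)) ^ p ^ m - τ (x : ℂ)‖ < 1 := by
    intro x hx
    have h2 := keyA _ hx
    refine ⟨(mem_CR.1 h2).1, fun hx0 => ?_, fun m => ?_⟩
    · refine cr_norm h2 ((hUn _ (hxZ _ hx)).2 ?_)
      exact_mod_cast hxs0 _ hx (by exact_mod_cast hx0)
    · rw [cr_frob h2]
      exact (hfr _ (hxZ _ hx) m).2 (hcjr m _)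
  have hI2 : ∀ f : ℂ →+* PadicAlgCl p, (f Complex.I) ^ 2 = -1 := by
    intro f
    rw [← map_pow, Complex.I_sq, map_neg, map_one]
  have hIpm : τ Complex.I = τ₀ Complex.I ∨ τ Complex.I = -τ₀ Complex.I := by
    refine sq_eq_sq_iff_eq_or_eq_neg.1 ?_
    rw [hI2 τ]
    exact (hI2 (τ₀ : ℂ →+* PadicAlgCl p)).symm
  have hodd : Odd p := hp.out.odd_of_ne_two (by omega)
  have hIm : ∀ m : ℕ, ‖(τ Complex.I) ^ p ^ m - τ Complex.I‖ < 1 ↔ cj^[m] Complex.I = Complex.I := by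
    intro m
    rw [← hfr _ hIZ m]
    rcases hIpm with h2 | h2
    · rw [h2]
    · have e1 : (τ Complex.I) ^ p ^ m - τ Complex.I = -((τ₀ Complex.I) ^ p ^ m - τ₀ Complex.I) := by
        rw [h2, (hodd.pow : Odd (p ^ m)).neg_pow]
        ring
      rw [e1, norm_neg]
  have hI1 : ‖τ Complex.I‖ = 1 := by
    have h2 := congrArg norm (hI2 τ)
    rw [norm_pow, norm_neg, norm_one] at h2
    exact (pow_eq_one_iff_of_nonneg (norm_nonneg _) two_ne_zero).1 h2
  have hcharp : CharP (kk p) p := charP_kk p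
  have hsplit : ∀ z : ℂ, z = ((z.re : ℝ) : ℂ) + Complex.I * ((z.im : ℝ) : ℂ) := by
    intro z
    rw [mul_comm]
    exact (Complex.re_add_im z).symm
  have hWre : ∀ z ∈ W, ((z.re : ℝ) : ℂ) ∈ T := fun z hz => Finset.mem_union_left _ (Finset.mem_union_left _
    (Finset.mem_image.2 ⟨z, hz, rfl⟩))
  have hWim : ∀ z ∈ W, ((z.im : ℝ) : ℂ) ∈ T := fun z hz => Finset.mem_union_left _ (Finset.mem_union_right _
    (Finset.mem_image.2 ⟨z, hz, rfl⟩))
  have hWn : ∀ z ∈ W, ((Complex.normSq z : ℝ) : ℂ) ∈ T := fun z hz => Finset.mem_union_right _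
    (Finset.mem_image.2 ⟨z, hz, rfl⟩)
  have hle : ∀ a b : ℝ, ((a : ℝ) : ℂ) ∈ T → ((b : ℝ) : ℂ) ∈ T → ‖τ ((a : ℂ) + Complex.I * (b : ℂ))‖ ≤ 1 := by
    intro a b ha hb
    rw [map_add, map_mul]
    refine (IsUltrametricDist.norm_add_le_max _ _).trans (max_le (hreal a ha).1 ?_)
    rw [norm_mul, hI1, one_mul]
    exact (hreal b hb).1
  have hUnW : Un τ W := by
    intro z hz
    have h2 : ‖τ z‖ ≤ 1 := by
      rw [hsplit z]
      exact hle _ _ (hWre z hz) (hWim z hz)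
    refine ⟨h2, fun hz0 => le_antisymm h2 ?_⟩
    have h3 : ‖τ (starRingEnd ℂ z)‖ ≤ 1 := by
      have e1 : starRingEnd ℂ z = ((z.re : ℝ) : ℂ) - Complex.I * ((z.im : ℝ) : ℂ) := by
        apply Complex.ext <;> simp
      rw [e1, map_sub, map_mul, sub_eq_add_neg]
      refine (IsUltrametricDist.norm_add_le_max _ _).trans (max_le (hreal _ (hWre z hz)).1 ?_)
      rw [norm_neg, norm_mul, hI1, one_mul]
      exact (hreal _ (hWim z hz)).1
    have h4 : ‖τ z‖ * ‖τ (starRingEnd ℂ z)‖ = 1 := by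
      rw [← norm_mul, ← map_mul, Complex.mul_conj]
      exact (hreal _ (hWn z hz)).2.1 (by rwa [ne_eq, Complex.normSq_eq_zero])
    calc (1 : ℝ) = ‖τ z‖ * ‖τ (starRingEnd ℂ z)‖ := h4.symm
      _ ≤ ‖τ z‖ * 1 := mul_le_mul_of_nonneg_left h3 (norm_nonneg _)
      _ = ‖τ z‖ := mul_one _
  refine ⟨p, hp, τ, lt_of_le_of_lt (le_max_left _ _) hpN, hUnW, fun z hz m => ?_⟩
  -- in the residue field
  have hx1 := (hreal _ (hWre z hz)).1
  have hy1 := (hreal _ (hWim z hz)).1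
  let x' : Ot τ := ⟨((z.re : ℝ) : ℂ), (mem_Ot τ).2 hx1⟩
  let y' : Ot τ := ⟨((z.im : ℝ) : ℂ), (mem_Ot τ).2 hy1⟩
  let i' : Ot τ := ⟨Complex.I, (mem_Ot τ).2 hI1.le⟩
  have hz' : rd τ z = rh τ x' + rh τ i' * rh τ y' := by
    rw [← map_mul, ← map_add, ← rd_coe]
    congr 1
    exact hsplit z
  have hxf : rh τ x' ^ p ^ m = rh τ x' := by
    rw [← rd_coe]
    exact (rd_pow_iff τ _ hx1 m).2 ((hreal _ (hWre z hz)).2.2 m)
  have hyf : rh τ y' ^ p ^ m = rh τ y' := by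
    rw [← rd_coe]
    exact (rd_pow_iff τ _ hy1 m).2 ((hreal _ (hWim z hz)).2.2 m)
  have hif : rh τ i' ^ p ^ m = rh τ i' ↔ cj^[m] Complex.I = Complex.I := by
    rw [← hIm m, ← rd_coe]
    exact rd_pow_iff τ _ hI1.le m
  rw [← rd_pow_iff τ z (hUnW z hz).1 m, hz', add_pow_char_pow, mul_pow, hxf, hyf, add_right_inj, ← hcji]
  have hcjz : cj^[m] z = ((z.re : ℝ) : ℂ) + cj^[m] Complex.I * ((z.im : ℝ) : ℂ) := by
    have h2 : ∀ w : ℂ, cj^[m] w = (cj ^ m : RingAut ℂ) w := by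
      intro w
      rw [← RingAut.coe_pow]
    conv_lhs => rw [hsplit z, h2, map_add, map_mul, ← h2, ← h2, ← h2, hcjr, hcjr]
  rw [hcjz]
  conv_rhs => rhs; rw [hsplit z]
  rw [add_right_inj]
  by_cases hy : z.im = 0
  · rw [hy, Complex.ofReal_zero, mul_zero, mul_zero]
    have h2 : rh τ y' = 0 := by
      rw [← rd_coe]
      change rd τ ((z.im : ℝ) : ℂ) = 0
      rw [hy, Complex.ofReal_zero, rd_zero]
    rw [h2, mul_zero, mul_zero]
    simp
  · have h2 : rh τ y' ≠ 0 := by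
      rw [ne_eq, rh_eq_zero]
      change ¬ ‖τ ((z.im : ℝ) : ℂ)‖ < 1
      rw [(hreal _ (hWim z hz)).2.1 hy]
      exact lt_irrefl _
    rw [mul_left_inj' h2, hif]
    have h3 : ((z.im : ℝ) : ℂ) ≠ 0 := by exact_mod_cast hy
    exact (mul_left_inj' h3).symm

end

end Pool.Agent.Helper26.RE
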